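import Pool.Agent.H208Q.N

/-!
MP_4d1008_ag: regular models, proper over `ℤ`, of the schemes birational to the quotients of
(possibly singular) proper varieties over finite fields of characteristic `p` by finite `p`-groups
whose leading forms along a weighted centre are linearly independent outside the vertex.
-/

set_option autoImplicit false

open AlgebraicGeometry CategoryTheory Pool.Agent.H920R2 Pool.Agent.H519R3.RS Pool.Agent.H208Q

namespace Pool.Agent.Results.MP_4d1008_ag.IndependentForms

/-- Let `k` be a finite field of characteristic `p`, `X` a proper integral scheme over `k` with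
function field `L` and `F` a filtration of its structure sheaf by sheaves of ideals, given by
finitely many affine charts `Spec (B a)` (`Charts`). Suppose that, for every chart `a`, `F a` is
multiplicative with `F a 0 = B a` and `F a 1 ≠ 0` and that its weighted blowup is smooth (`Good`;
`B a` may be singular), for instance `B a` smooth and `F a` a regular weighted centre.

Let a finite `p`-group `G` act on `X`: it acts on `L` by `Θ` and on the `B a` by `θ a`, and the
`h a` are invariant. Let `1 = H 0 < H 1 < ... < H r = G` be a chain of subgroups such that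
`H (i + 1)` is generated by `H i` and an element `s i` which normalizes `H i`, with `(s i) ^ p` in
`H i` (such chains always exist). Suppose that, on every chart `a`,

* `s i - 1` raises the weights by some `l a i > 0`;
* the fixed points of the elements `g ≠ 1` of `G` lie in the centre;
* the leading forms of `s 0 - 1, ..., s (r - 1) - 1` are linearly independent at every point of the
  normal cone outside the vertex: every `x` in `F a d`, `d > 0`, has a power `x ^ N` in the ideal
  generated by `F a (N * d + 1)` and the multiples of the determinants of the elements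
  `s i (c j) - c j` (`detI`).

Then every integral scheme `Y` of finite type over `ℤ` whose function field is isomorphic to the
function field `M` of `X / G` has a regular model proper over `ℤ`. -/
theorem result (p : ℕ) [Fact p.Prime] (k : Type) [Field k] [Finite k] [CharP k p]
    (L : Type) [Field L] [Algebra k L] (𝒜 : Type) [Finite 𝒜] (B : 𝒜 → Subalgebra k L)
    (h : 𝒜 → L) (F : ∀ a, ℕ → Ideal (B a)) (hX : Charts B h F) (hF : ∀ a, IsFilt (F a))
    (hne : ∀ a, F a 1 ≠ ⊥)
    (hB : ∀ a, Good k (hF a) ∨ (Algebra.Smooth k (B a) ∧ RegularWeightedCentre k (F a)))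
    (G : Type) [Group G] [Finite G] (Θ : G →* (L ≃ₐ[k] L)) (θ : ∀ a, G →* (B a ≃ₐ[k] B a))
    (hθ : ∀ a g x, ((θ a g x : B a) : L) = Θ g x) (hh : ∀ a g, Θ g (h a) = h a)
    (r : ℕ) (H : ℕ → Subgroup G) (s : ℕ → G) (l : 𝒜 → ℕ → ℕ) (hH0 : H 0 = ⊥) (hHr : H r = ⊤)
    (hH : ∀ i < r, H (i + 1) = H i ⊔ Subgroup.zpowers (s i))
    (hnorm : ∀ i < r, ∀ g, g ∈ H i ↔ s i * g * (s i)⁻¹ ∈ H i)
    (hpow : ∀ i < r, s i ^ p ∈ H i) (hnot : ∀ i < r, s i ∉ H i)
    (hl : ∀ a, ∀ i < r, 0 < l a i)
    (hdiv : ∀ a, ∀ i < r, ∀ d, ∀ x ∈ F a d, θ a (s i) x - x ∈ F a (d + l a i))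
    (hfix : ∀ a, ∀ g : G, g ≠ 1 → ∀ Q : Ideal (B a), Q.IsPrime →
      (∀ x, θ a g x - x ∈ Q) → F a 1 ≤ Q)
    (hlead : ∀ a d, 1 ≤ d → ∀ x ∈ F a d, ∃ N : ℕ,
      x ^ N ∈ detI (fun (i : Fin r) b => θ a (s i) b - b) (F a) (fun i => l a i) (N * d))
    (M : IntermediateField k L) (hM : ∀ x, x ∈ M ↔ ∀ g, Θ g x = x)
    (Y : Scheme.{0}) (_ : IsIntegral Y) (t : Y ⟶ Spec (CommRingCat.of ℤ))
    (_ : LocallyOfFiniteType t) (_ : QuasiCompact t)
    (_ : Nonempty (Y.functionField ≃+* M)) :
    ∃ (X' : Scheme.{0}) (_ : IsIntegral X') (g : X' ⟶ Spec (CommRingCat.of ℤ)),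
      IsProper g ∧
      (∀ x : X',
        (((Module.finrank (IsLocalRing.ResidueField (X'.presheaf.stalk x))
            (IsLocalRing.CotangentSpace (X'.presheaf.stalk x)) : ℕ∞)) : WithBot ℕ∞)
          = ringKrullDim (X'.presheaf.stalk x)) ∧
      Nonempty (X'.functionField ≃+* Y.functionField) := by
  have hp : p.Prime := Fact.out
  have hpk : (p : k) = 0 := CharP.cast_eq_zero k p
  have hG' : ∀ a, Good k (hF a) := by
    intro a
    rcases hB a with h | ⟨h1, h2⟩
    · exact h
    · exact good_of_centre (hF a) h2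
  obtain ⟨W, hW, I, hI, z, J, hmod⟩ :=
    model_pgroup hp hpk hX hF hne hG' Θ θ hθ hh M hM H s l hH0 hHr hH hnorm hpow hnot hl hdiv
      hfix hlead
  obtain ⟨X', hX', g, h1, h2, ⟨h3⟩⟩ := exists_regular_model M hmod hW
  obtain ⟨ε⟩ := ‹Nonempty (Y.functionField ≃+* M)›
  exact ⟨X', hX', g, h1, h2, ⟨h3.trans ε.symm⟩⟩

end Pool.Agent.Results.MP_4d1008_ag.IndependentForms
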