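import Pool.Agent.Helper382_Nodal.Birat
import Pool.Agent.TH214.RM.Base

/-!
MP_4d1008_ag: resolution, in every dimension, of hypersurfaces over the integers and over rings of
integers of number fields: of all those which are smooth in the generic fibre and whose reductions
have nondegenerate singular points (or lie on a regular scheme), and of a positive proportion of
all hypersurfaces.

1. Let `G = 0` be a smooth hypersurface of degree at least two and of positive dimension over a
   number field `K`, such that for every prime `𝔭` of `K` it has, in suitable coordinates over `K`,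
   an integral equation `H = 0` whose scheme is regular over `𝔭`, or such that at all singular
   points of the fibre over `𝔭` the matrix of the second derivatives of the equation is invertible.
   In the second case the scheme `H = 0` over the ring of integers need not be regular.
   Then every integral scheme of finite type over the integers with the same function field as the
   hypersurface is birational to a regular integral scheme proper over the integers.
2. For every degree `d ≥ 3` and every dimension a positive proportion of all integral forms of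
   degree `d`, ordered by the largest absolute value of the coefficients, defines over every number
   field a smooth hypersurface with this property.
-/

set_option autoImplicit false

open AlgebraicGeometry CategoryTheory CategoryTheory.Limits MvPolynomial

open scoped NumberField

namespace Pool.Agent.Results.MP_4d1008_ag.NodalReductions

/-- The polynomial in the variables `X j`, `j ≠ s`, obtained from `H` by setting `X s = 1`: the
equation of the hypersurface `H = 0` in the chart `X s ≠ 0` of the projective space over `R`. -/
noncomputable def dehom {R : Type} [CommRing R] {m : ℕ} (s : Fin m) (H : MvPolynomial (Fin m) R) :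
    MvPolynomial {j : Fin m // j ≠ s} R :=
  aeval (fun j => if h : j = s then 1 else X ⟨j, h⟩) H

/-- The ideal `Q` of the polynomial ring over `R` lies over `𝔭`. -/
def LiesAbove {R σ : Type} [CommRing R] (𝔭 : Ideal R) (Q : Ideal (MvPolynomial σ R)) : Prop :=
  ∀ r : R, C r ∈ Q ↔ r ∈ 𝔭

/-- For a prime `Q` of `A`, the element `f` is not in the square of the maximal ideal of the
localization of `A` at `Q`. -/
def NotInSquare {A : Type} [CommRing A] (Q : Ideal A) (f : A) : Prop :=
  ∀ h, h ∉ Q → h * f ∉ Q ^ 2

/-- The scheme `H = 0` in the projective space over `R` is regular at its points over `𝔭`: for every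
chart `s` and every prime `Q` of the polynomial ring of the chart lying over `𝔭` and containing the
equation, the equation is not in the square of the maximal ideal of the localization at `Q`. -/
def IsRegularAt {R : Type} [CommRing R] (𝔭 : Ideal R) {m : ℕ} (H : MvPolynomial (Fin m) R) :
    Prop :=
  ∀ (s : Fin m) (Q : Ideal (MvPolynomial {j : Fin m // j ≠ s} R)), Q.IsPrime →
    LiesAbove 𝔭 Q → dehom s H ∈ Q → NotInSquare Q (dehom s H)

/-- The matrix of the second derivatives of `f`. -/
noncomputable def hessian {R σ : Type} [CommRing R] (f : MvPolynomial σ R) :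
    Matrix σ σ (MvPolynomial σ R) :=
  Matrix.of fun i j => pderiv j (pderiv i f)

/-- The singular points of the fibre over `𝔭` of the scheme `H = 0` in the projective space over `R`
are nondegenerate: for every chart `s` and every prime `Q` of the polynomial ring of the chart lying
over `𝔭` and containing the equation, one of the derivatives of the equation is not in `Q`, or the
determinant of the matrix of its second derivatives is not in `Q`. -/
def HasNondegenerateFibre {R : Type} [CommRing R] (𝔭 : Ideal R) {m : ℕ}
    (H : MvPolynomial (Fin m) R) : Prop :=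
  ∀ (s : Fin m) (Q : Ideal (MvPolynomial {j : Fin m // j ≠ s} R)), Q.IsPrime →
    LiesAbove 𝔭 Q → dehom s H ∈ Q →
      (∃ j, pderiv j (dehom s H) ∉ Q) ∨ (hessian (dehom s H)).det ∉ Q

/-- The partial derivatives of `G` have no common zero (over an algebraic closure) but the origin:
every variable has a power in the ideal they generate. -/
def IsSmooth {K : Type} [Field K] {m : ℕ} (G : MvPolynomial (Fin m) K) : Prop :=
  ∀ i, X i ∈ (Ideal.span (Set.range fun j => pderiv j G)).radical

/-- `H` is obtained from `G` by the linear change of coordinates `T` and multiplication with the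
scalar `l`. -/
def IsEquation {R K : Type} [CommRing R] [Field K] [Algebra R K] {m : ℕ}
    (G : MvPolynomial (Fin m) K) (H : MvPolynomial (Fin m) R) (l : K)
    (T : Matrix (Fin m) (Fin m) K) : Prop :=
  map (algebraMap R K) H = C l * aeval (fun i => ∑ j, C (T i j) * X j) G

/-- For every prime `𝔭` a linear change of coordinates over the number field and a scalar turn `G`
into a form with integral coefficients whose hypersurface is regular at its points over `𝔭` or has
only nondegenerate singular points in the fibre over `𝔭`. -/
def HasNodalEquations {K : Type} [Field K] {m : ℕ} (G : MvPolynomial (Fin m) K) : Prop :=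
  ∀ 𝔭 : Ideal (𝓞 K), 𝔭.IsPrime → 𝔭 ≠ ⊥ →
    ∃ (H : MvPolynomial (Fin m) (𝓞 K)) (l : K) (T T' : Matrix (Fin m) (Fin m) K),
      l ≠ 0 ∧ T * T' = 1 ∧ IsEquation G H l T ∧ (IsRegularAt 𝔭 H ∨ HasNondegenerateFibre 𝔭 H)

/-- `F` is the function field over `K` of the hypersurface `G = 0` with the generic point `x`, whose
first coordinate is `1`. -/
def IsFunctionField {K F : Type} [Field K] [Field F] [Algebra K F] {n : ℕ}
    (G : MvPolynomial (Fin (n + 3)) K) (x : Fin (n + 3) → F) : Prop :=
  x 0 = 1 ∧ aeval x G = 0 ∧ IntermediateField.adjoin K (Set.range x) = ⊤ ∧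
    Algebra.trdeg K F = ((n + 1 : ℕ) : Cardinal)

/-- Every integral scheme of finite type over the integers whose function field is the function
field of the hypersurface `G = 0` is birational to a regular integral scheme proper over the
integers. -/
def HypersurfaceHasModel {K : Type} [Field K] {n : ℕ} (G : MvPolynomial (Fin (n + 3)) K) : Prop :=
  ∀ (F : Type) [Field F] [Algebra K F] (x : Fin (n + 3) → F), IsFunctionField G x →
  ∀ (Y : Scheme.{0}) (_ : IsIntegral Y) (s : Y ⟶ Spec (CommRingCat.of ℤ)),
  LocallyOfFiniteType s → QuasiCompact s → Nonempty (Y.functionField ≃+* F) →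
  ∃ (X' : Scheme.{0}) (_ : IsIntegral X') (g : X' ⟶ Spec (CommRingCat.of ℤ)),
    IsProper g ∧
    (∀ x : X',
      (((Module.finrank (IsLocalRing.ResidueField (X'.presheaf.stalk x))
          (IsLocalRing.CotangentSpace (X'.presheaf.stalk x)) : ℕ∞)) : WithBot ℕ∞)
        = ringKrullDim (X'.presheaf.stalk x)) ∧
    Nonempty (X'.functionField ≃+* Y.functionField)

/-- The integral forms of degree `d` in `m` variables with coefficients of absolute value at most
`H`. -/
def forms (m d H : ℕ) : Set (MvPolynomial (Fin m) ℤ) :=
  {F | F.IsHomogeneous d ∧ ∀ e, |F.coeff e| ≤ (H : ℤ)}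

/-- The form over `K` given by a form with integral coefficients. -/
noncomputable def formOver (K : Type) [Field K] {m : ℕ} (F : MvPolynomial (Fin m) ℤ) :
    MvPolynomial (Fin m) K :=
  map (algebraMap ℤ K) F

theorem result :
    (∀ (K : Type) [Field K] [NumberField K] (n d : ℕ), 2 ≤ d →
      ∀ G : MvPolynomial (Fin (n + 3)) K, G.IsHomogeneous d → IsSmooth G →
      HasNodalEquations G → HypersurfaceHasModel G) ∧
    (∀ n d : ℕ, 3 ≤ d → ∃ c : ℝ, 0 < c ∧ ∃ H₀ : ℕ, ∀ H : ℕ, H₀ ≤ H →
      (forms (n + 3) d H).Finite ∧ c * (forms (n + 3) d H).ncard ≤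
        {F | F ∈ forms (n + 3) d H ∧ ∀ (K : Type) [Field K] [NumberField K],
          IsSmooth (formOver K F) ∧ HypersurfaceHasModel (formOver K F)}.ncard) := by
  have main : ∀ (K : Type) [Field K] [NumberField K] (n d : ℕ), 2 ≤ d →
      ∀ G : MvPolynomial (Fin (n + 3)) K, G.IsHomogeneous d → IsSmooth G →
      Pool.Agent.Helper382_Nodal.LocNod (𝓞 K) G → HypersurfaceHasModel G := by
    rintro K _ _ n d hd G hG hsm hloc F _ _ x ⟨hx0, hrel, hgen, htr⟩ Y _ s _ _ ⟨i⟩
    obtain ⟨X', hi, g, hg, hreg, ⟨j⟩⟩ := Pool.Agent.Helper382_Nodal.model_B (n := n + 1) (by omega)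
      G d hd hG hsm hloc x hx0 hrel hgen htr
    exact ⟨X', hi, g, hg, hreg, ⟨j.trans i.symm⟩⟩
  refine ⟨?_, ?_⟩
  · intro K _ _ n d hd G hG hsm hloc
    refine main K n d hd G hG hsm ?_
    intro 𝔭 hp h0
    obtain ⟨H, l, T, T', hl, hT, hH, hreg⟩ := hloc 𝔭 hp h0
    exact ⟨H, l, T, T', hl, hT, hH, hreg.imp (fun h => Pool.Agent.TH214.RM.Reg.crit h) id⟩
  · intro n d hd
    obtain ⟨c, hc, H₀, h⟩ := Pool.Agent.Helper382_Nodal.density_forms (n + 1) d hd
    refine ⟨c, hc, H₀, fun H hH => ⟨Pool.Agent.Helper382_Nodal.finite_forms (n + 1) d H,
      (h H hH).trans ?_⟩⟩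
    refine Nat.cast_le.2 (Set.ncard_le_ncard ?_
      ((Pool.Agent.Helper382_Nodal.finite_forms (n + 1) d H).subset fun _ hF => hF.1))
    rintro F ⟨hF, hnod, hsm⟩
    refine ⟨hF, fun K _ _ => ⟨hsm K, main K n d (by omega) _ (hF.1.map _) (hsm K)
      (Pool.Agent.Helper382_Nodal.locNod_of_nod F hnod)⟩⟩

end Pool.Agent.Results.MP_4d1008_ag.NodalReductions
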