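import Pool.Agent.H208P.N4

/-!
MP_4d1008_ag: regular models, proper over `ℤ`, of the quotients of smooth projective varieties over
finite fields of characteristic `p` by automorphisms of order `p` which near their fixed points act,
up to equivariant étale maps, like products of curves, linear representations and actions with a
weighted centre.
-/

set_option autoImplicit false

open AlgebraicGeometry CategoryTheory Pool.Agent.H920R2 Pool.Agent.H208P

namespace Pool.Agent.Results.MP_4d1008_ag.WeightedLocalQuotients

section

variable {k K : Type} [Field k] [Field K] [Algebra k K]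

/-- The field extension `K` of `k` is generated by the ratios of the nonzero elements
`z 0, …, z l`, and every algebra `k[z 0 / z i, …, z l / z i]` is smooth over `k`: the `z i` are the
homogeneous coordinates of a smooth projective variety over `k` with function field `K`. -/
structure IsSmoothProjective (k : Type) {K : Type} [Field k] [Field K] [Algebra k K] {l : ℕ}
    (z : Fin (l + 1) → K) : Prop where
  ne_zero : ∀ i, z i ≠ 0
  smooth : ∀ i, Algebra.Smooth k (Algebra.adjoin k (Set.range fun j => z j / z i))
  generate : IntermediateField.adjoin k (Set.range fun j => z j / z 0) = ⊤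

/-- The subalgebra `O` of `K` is the local ring at a prime `q` of the subalgebra `A`: it consists
of the fractions `a / b` with `a` and `b` in `A` and `b` not in `q`. -/
def IsLocalRingAt (A : Subalgebra k K) (q : Ideal A) (O : Subalgebra k K) : Prop :=
  q.IsPrime ∧ ∀ x, x ∈ O ↔ ∃ a b : A, b ∉ q ∧ x * b = a

/-- The subalgebra `O` of `K` is the local ring of a point of the projective variety with
homogeneous coordinates `z`. -/
def IsLocalRingOf {l : ℕ} (z : Fin (l + 1) → K) (O : Subalgebra k K) : Prop :=
  ∃ i, ∃ q : Ideal (Algebra.adjoin k (Set.range fun j => z j / z i)), IsLocalRingAt _ q O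

/-- The automorphism `σ` is weighted at the point with local ring `O`: if the point is fixed (`σ`
maps `O` to itself, and `σ x - x` is not a unit of `O` for all `x` in `O`), then it has an affine
neighbourhood `Spec A`, of finite type and stable under `σ`, such that the action of `σ` on `A` is
in the class `Weighted`. -/
def IsWeightedAt (p : ℕ) (σ : K ≃ₐ[k] K) (O : Subalgebra k K) : Prop :=
  (∀ x ∈ O, σ x ∈ O ∧ ∀ x' ∈ O, (σ x - x) * x' ≠ 1) →
    ∃ (A : Subalgebra k K) (q : Ideal A) (τ : A ≃ₐ[k] A), Algebra.FiniteType k A ∧
      IsLocalRingAt A q O ∧ (∀ a, ((τ a : A) : K) = σ a) ∧ Weighted p k A τ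

/-- Every integral scheme of finite type over `ℤ` with function field isomorphic to the field `F`
has a regular model which is proper over `ℤ`. -/
def HasRegularModels (F : Type) [Field F] : Prop :=
  ∀ (Y : Scheme.{0}) (_ : IsIntegral Y) (s : Y ⟶ Spec (CommRingCat.of ℤ))
    (_ : LocallyOfFiniteType s) (_ : QuasiCompact s) (_ : Nonempty (Y.functionField ≃+* F)),
    ∃ (X' : Scheme.{0}) (_ : IsIntegral X') (g : X' ⟶ Spec (CommRingCat.of ℤ)),
      IsProper g ∧
      (∀ x : X',
        (((Module.finrank (IsLocalRing.ResidueField (X'.presheaf.stalk x))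
            (IsLocalRing.CotangentSpace (X'.presheaf.stalk x)) : ℕ∞)) : WithBot ℕ∞)
          = ringKrullDim (X'.presheaf.stalk x)) ∧
      Nonempty (X'.functionField ≃+* Y.functionField)

end

/-- Let `k` be a finite field of characteristic `p`. Let `V` be a smooth projective variety over `k`
with homogeneous coordinates `z i` and function field `L`, and `σ` an automorphism of `V` given by
a linear substitution of the `z i`, with `σ ^ p = 1`. Suppose that `σ` is weighted at all its fixed
points on `V`. Then every integral scheme of finite type over `ℤ` whose function field is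
isomorphic to the field of invariants of `σ` (the function field of the quotient of `V` by `σ`) has
a regular model proper over `ℤ`. -/
theorem result (p : ℕ) [Fact p.Prime] (k : Type) [Field k] [Finite k] [CharP k p]
    (L : Type) [Field L] [Algebra k L] (l : ℕ) (z : Fin (l + 1) → L)
    (hz : IsSmoothProjective k z) (σ : L ≃ₐ[k] L) (hσ : σ ^ p = 1)
    (hlin : ∀ i, σ (z i) ∈ Submodule.span k (Set.range z))
    (hloc : ∀ O : Subalgebra k L, IsLocalRingOf z O → IsWeightedAt p σ O) :
    HasRegularModels (IntermediateField.fixedField (Subgroup.zpowers σ)) := by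
  have hp : p.Prime := Fact.out
  have hpk : (p : k) = 0 := CharP.cast_eq_zero k p
  intro Y hY s hs1 hs2 hYL
  have hM : ∀ x, x ∈ IntermediateField.fixedField (Subgroup.zpowers σ) ↔ σ x = x := by
    intro x
    rw [IntermediateField.mem_fixedField_iff]
    constructor
    · intro h
      exact h σ (Subgroup.mem_zpowers σ)
    · rintro h _ ⟨n, rfl⟩
      have h1 : σ ∈ MulAction.stabilizer (L ≃ₐ[k] L) x := h
      exact Subgroup.zpow_mem _ h1 n
  obtain ⟨T, W, hW, I, hI, z', J, hmod⟩ := model_of_proj hp hpk hz.ne_zero hz.smooth hz.generate σ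
    (iter_of_pow hσ) hlin (by
      intro i q hq h
      obtain ⟨A, q', τ, hA, ⟨hq', hO⟩, hτ, hW⟩ := hloc (Pool.Agent.W559.Et.locR _ q hq)
        ⟨i, q, hq, fun x => Iff.rfl⟩ h
      refine ⟨A, q', hq', τ, hA, ?_, hτ, hW.hasCentre hp hpk⟩
      ext x
      exact hO x) _ hM
  obtain ⟨X', hX', g, h1, h2, ⟨h3⟩⟩ := exists_regular_model _ hmod hW
  obtain ⟨ε⟩ := hYL
  exact ⟨X', hX', g, h1, h2, ⟨h3.trans ε.symm⟩⟩

end Pool.Agent.Results.MP_4d1008_ag.WeightedLocalQuotients
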